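import Mathlib

/-!
# MP_a09116_an : the 1-jet map of lifts of stationary discs

We disprove Q1 (both versions): there are strongly Levi nondegenerate, Levi generating quadrics
which are strongly `𝔇(a)`-nondegenerate (with `a` as small as we like) such that the differential of
the 1-jet map is singular at `(a, V)` for every `V`.
-/

namespace Pool.Agent.Results.MP_a09116_an.SingularJet

open Filter Set Topology

set_option linter.unusedSectionVars false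

/-! ### Stein equations in a normed star ring -/

section Abstract

variable {R : Type*} [NormedRing R] [CompleteSpace R] [StarRing R] [NormedStarGroup R]
  [NormedAlgebra ℝ R] [StarModule ℝ R] [NormOneClass R]

/-- `G X B = ∑ (X*)^r B X^r`. -/
noncomputable def G (X B : R) : R := ∑' r : ℕ, (star X) ^ r * B * X ^ r

theorem G_summable {X : R} (hX : ‖X‖ < 1) (B : R) :
    Summable (fun r : ℕ => (star X) ^ r * B * X ^ r) := by
  have h0 := norm_nonneg X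
  have hg : Summable (fun r : ℕ => ‖B‖ * (‖X‖ * ‖X‖) ^ r) :=
    (summable_geometric_of_lt_one (by positivity) (by nlinarith)).mul_left _
  refine Summable.of_norm_bounded hg ?_
  intro r
  calc ‖(star X) ^ r * B * X ^ r‖ ≤ ‖(star X) ^ r * B‖ * ‖X ^ r‖ := norm_mul_le _ _
    _ ≤ ‖(star X) ^ r‖ * ‖B‖ * ‖X ^ r‖ := by gcongr; exact norm_mul_le _ _
    _ ≤ ‖X‖ ^ r * ‖B‖ * ‖X‖ ^ r := by
        gcongr
        · calc ‖(star X) ^ r‖ ≤ ‖star X‖ ^ r := norm_pow_le _ _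
            _ = ‖X‖ ^ r := by rw [norm_star]
        · exact norm_pow_le _ _
    _ = ‖B‖ * (‖X‖ * ‖X‖) ^ r := by rw [mul_pow]; ring

theorem G_eq {X : R} (hX : ‖X‖ < 1) (B : R) : G X B = B + star X * G X B * X := by
  have hs := G_summable hX B
  unfold G
  conv_lhs => rw [hs.tsum_eq_zero_add]
  rw [← (hs.tsum_mul_left (star X)), ← ((hs.mul_left (star X)).tsum_mul_right X)]
  simp only [pow_zero, one_mul, mul_one]
  congr 1
  apply tsum_congr
  intro r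
  rw [pow_succ', pow_succ]
  simp only [mul_assoc]

theorem eq_zero_of_stein {X D : R} (hX : ‖X‖ < 1) (hD : D = star X * D * X) : D = 0 := by
  have h0 := norm_nonneg X
  have h1 : ‖D‖ ≤ ‖X‖ * ‖D‖ * ‖X‖ := by
    calc ‖D‖ = ‖star X * D * X‖ := by rw [← hD]
      _ ≤ ‖star X * D‖ * ‖X‖ := norm_mul_le _ _
      _ ≤ ‖star X‖ * ‖D‖ * ‖X‖ := by gcongr; exact norm_mul_le _ _
      _ = ‖X‖ * ‖D‖ * ‖X‖ := by rw [norm_star]
  by_contra hne
  have hpos : 0 < ‖D‖ := norm_pos_iff.2 hne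
  have h2 : 0 < 1 - ‖X‖ * ‖X‖ := by nlinarith
  nlinarith [mul_pos h2 hpos]

theorem eq_G {X K B : R} (hX : ‖X‖ < 1) (hK : K = B + star X * K * X) : K = G X B := by
  have h := G_eq hX B
  rw [← sub_eq_zero]
  apply eq_zero_of_stein hX
  calc K - G X B = (B + star X * K * X) - (B + star X * G X B * X) := by rw [← hK, ← h]
    _ = star X * (K - G X B) * X := by noncomm_ring

theorem G_norm_le {X : R} (hX : ‖X‖ < 1) (B : R) : ‖G X B‖ ≤ (1 - ‖X‖ * ‖X‖)⁻¹ * ‖B‖ := by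
  have h0 := norm_nonneg X
  have h1 : ‖G X B‖ ≤ ‖B‖ + ‖X‖ * ‖G X B‖ * ‖X‖ := by
    calc ‖G X B‖ = ‖B + star X * G X B * X‖ := by rw [← G_eq hX]
      _ ≤ ‖B‖ + ‖star X * G X B * X‖ := norm_add_le _ _
      _ ≤ ‖B‖ + ‖star X * G X B‖ * ‖X‖ := by gcongr; exact norm_mul_le _ _
      _ ≤ ‖B‖ + ‖star X‖ * ‖G X B‖ * ‖X‖ := by gcongr; exact norm_mul_le _ _
      _ = ‖B‖ + ‖X‖ * ‖G X B‖ * ‖X‖ := by rw [norm_star]
  have h2 : 0 < 1 - ‖X‖ * ‖X‖ := by nlinarith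
  rw [inv_mul_eq_div, le_div_iff₀ h2]
  nlinarith

theorem G_add {X : R} (hX : ‖X‖ < 1) (B B' : R) : G X (B + B') = G X B + G X B' := by
  symm
  apply eq_G hX
  conv_lhs => rw [G_eq hX B, G_eq hX B']
  noncomm_ring

theorem G_smul {X : R} (hX : ‖X‖ < 1) (c : ℝ) (B : R) : G X (c • B) = c • G X B := by
  symm
  apply eq_G hX
  conv_lhs => rw [G_eq hX B]
  rw [smul_add, mul_smul_comm, smul_mul_assoc]

/-- `G X` as a continuous linear map. -/
noncomputable def Gc (X : R) (hX : ‖X‖ < 1) : R →L[ℝ] R :=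
  LinearMap.mkContinuous
    { toFun := G X
      map_add' := G_add hX
      map_smul' := G_smul hX } ((1 - ‖X‖ * ‖X‖)⁻¹) (G_norm_le hX)

theorem Gc_apply (X : R) (hX : ‖X‖ < 1) (B : R) : Gc X hX B = G X B := rfl

theorem G_mul_right {X : R} (hX : ‖X‖ < 1) (B C : R) (hC : C * X = X * C) :
    G X (B * C) = G X B * C := by
  symm
  apply eq_G hX
  conv_lhs => rw [G_eq hX B]
  rw [add_mul, mul_assoc (star X * G X B) X C, ← hC]
  simp only [mul_assoc]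

/-- The equation satisfied by `Y ε`. -/
def YEq (P J H : R) (Y : ℝ → R) (ε : ℝ) : Prop :=
  ‖Y ε‖ < 1 ∧ (P + ε • H) * (Y ε) ^ 2 + (J - (2 * ε) • H) * Y ε + (P + ε • H) = 0

section Deriv

variable {P J H Ninv X : R} {Y : ℝ → R}

theorem diff_eq (heq0 : P * X ^ 2 + J * X + P = 0) {ε : ℝ} (hY : YEq P J H Y ε) :
    P * ((Y ε - X) * Y ε + X * (Y ε - X)) + J * (Y ε - X) = -(ε • (H * (1 - Y ε) ^ 2)) := by
  have h1 := hY.2
  have h2 : P * ((Y ε - X) * Y ε + X * (Y ε - X)) + J * (Y ε - X) + ε • (H * (1 - Y ε) ^ 2) =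
      ((P + ε • H) * (Y ε) ^ 2 + (J - (2 * ε) • H) * Y ε + (P + ε • H)) -
        (P * X ^ 2 + J * X + P) := by
    have e : (2 * ε) • H = ε • H + ε • H := by rw [two_mul, add_smul]
    rw [e, ← smul_mul_assoc]
    noncomm_ring
  rw [h1, heq0, sub_zero] at h2
  exact eq_neg_of_add_eq_zero_left h2

theorem norm_diff_le (hX : ‖X‖ < 1) (hJ : J * J = 1) (hJn : ‖J‖ ≤ 1) (hP : ‖P‖ ≤ 1 / 5)
    (heq0 : P * X ^ 2 + J * X + P = 0) {ε : ℝ} (hY : YEq P J H Y ε) :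
    ‖Y ε - X‖ ≤ 8 * ‖H‖ * |ε| := by
  have h1 := diff_eq heq0 hY
  set D := Y ε - X with hD
  have h2 : J * D = -(ε • (H * (1 - Y ε) ^ 2)) - P * (D * Y ε + X * D) := by
    rw [← h1]; abel
  have h3 : D = J * (-(ε • (H * (1 - Y ε) ^ 2)) - P * (D * Y ε + X * D)) := by
    rw [← h2, ← mul_assoc, hJ, one_mul]
  have hy : ‖(1 : R) - Y ε‖ ≤ 2 := by
    calc ‖(1 : R) - Y ε‖ ≤ ‖(1 : R)‖ + ‖Y ε‖ := norm_sub_le _ _
      _ ≤ 2 := by rw [norm_one]; linarith [hY.1]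
  have h4 : ‖(1 - Y ε) ^ 2‖ ≤ 4 := by
    calc ‖(1 - Y ε) ^ 2‖ ≤ ‖(1 : R) - Y ε‖ ^ 2 := norm_pow_le _ _
      _ ≤ 2 ^ 2 := by gcongr
      _ = 4 := by norm_num
  have h5 : ‖ε • (H * (1 - Y ε) ^ 2)‖ ≤ |ε| * (‖H‖ * 4) := by
    rw [norm_smul, Real.norm_eq_abs]
    gcongr
    exact (norm_mul_le _ _).trans (by gcongr)
  have h6 : ‖P * (D * Y ε + X * D)‖ ≤ 1 / 5 * (‖D‖ * 1 + 1 * ‖D‖) := by
    refine (norm_mul_le _ _).trans ?_
    gcongr
    refine (norm_add_le _ _).trans ?_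
    gcongr
    · exact (norm_mul_le _ _).trans (by gcongr; exact hY.1.le)
    · exact (norm_mul_le _ _).trans (by gcongr)
  have h7 : ‖D‖ ≤ |ε| * (‖H‖ * 4) + 1 / 5 * (‖D‖ * 1 + 1 * ‖D‖) := by
    calc ‖D‖ = ‖J * (-(ε • (H * (1 - Y ε) ^ 2)) - P * (D * Y ε + X * D))‖ := by rw [← h3]
      _ ≤ ‖J‖ * ‖-(ε • (H * (1 - Y ε) ^ 2)) - P * (D * Y ε + X * D)‖ := norm_mul_le _ _
      _ ≤ 1 * ‖-(ε • (H * (1 - Y ε) ^ 2)) - P * (D * Y ε + X * D)‖ := by gcongr
      _ ≤ 1 * (‖-(ε • (H * (1 - Y ε) ^ 2))‖ + ‖P * (D * Y ε + X * D)‖) := by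
          gcongr; exact norm_sub_le _ _
      _ ≤ _ := by rw [norm_neg, one_mul]; gcongr
  have h8 : 0 ≤ ‖H‖ * |ε| := by positivity
  nlinarith [norm_nonneg D]

theorem deriv_Y (hX : ‖X‖ < 1) (hJ : J * J = 1) (hJn : ‖J‖ ≤ 1) (hP : ‖P‖ ≤ 1 / 5)
    (heq0 : P * X ^ 2 + J * X + P = 0) (hPN : P = -(star X * (J + P * X)))
    (hNinv : Ninv * (J + P * X) = 1) (hY0 : Y 0 = X) (hY : ∀ᶠ ε in 𝓝 (0 : ℝ), YEq P J H Y ε) :
    HasDerivAt Y (Ninv * G X (-(H * (1 - X) ^ 2))) 0 ∧ Tendsto Y (𝓝 0) (𝓝 X) := by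
  have hbound : ∀ᶠ ε in 𝓝 (0 : ℝ), ‖Y ε - X‖ ≤ 8 * ‖H‖ * |ε| := by
    filter_upwards [hY] with ε hε
    exact norm_diff_le hX hJ hJn hP heq0 hε
  have hcont : Tendsto Y (𝓝 0) (𝓝 X) := by
    rw [tendsto_iff_norm_sub_tendsto_zero]
    refine squeeze_zero' (Eventually.of_forall fun _ => norm_nonneg _) hbound ?_
    have : Tendsto (fun ε : ℝ => 8 * ‖H‖ * |ε|) (𝓝 0) (𝓝 (8 * ‖H‖ * |0|)) :=
      ((continuous_const.mul continuous_abs).tendsto 0)
    simpa using this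
  refine ⟨?_, hcont⟩
  rw [hasDerivAt_iff_tendsto_slope_zero]
  simp only [zero_add, hY0]
  have hkey : ∀ᶠ ε in 𝓝[≠] (0 : ℝ), ε⁻¹ • (Y ε - X) =
      Ninv * Gc X hX (-(H * (1 - Y ε) ^ 2) - P * (ε⁻¹ • (Y ε - X)) * (Y ε - X)) := by
    filter_upwards [nhdsWithin_le_nhds hY, self_mem_nhdsWithin] with ε hε hne
    have hne' : ε ≠ 0 := hne
    have h1 := diff_eq heq0 hε
    set D := Y ε - X with hD
    have h2 : (J + P * X) * D = (-(ε • (H * (1 - Y ε) ^ 2)) - P * D * D) +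
        star X * ((J + P * X) * D) * X := by
      have e1 : star X * ((J + P * X) * D) * X = -(P * D * X) := by
        have : star X * (J + P * X) = -P := by rw [hPN, neg_neg, ← hPN]
        rw [← mul_assoc, this]
        noncomm_ring
      rw [e1, ← h1]
      have e2 : Y ε = D + X := by rw [hD]; abel
      rw [e2]
      noncomm_ring
    have h3 := eq_G hX h2
    have h4 : D = Ninv * G X (-(ε • (H * (1 - Y ε) ^ 2)) - P * D * D) := by
      rw [← h3, ← mul_assoc, hNinv, one_mul]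
    clear_value D
    have h5 : -(H * (1 - Y ε) ^ 2) - P * (ε⁻¹ • D) * D =
        ε⁻¹ • (-(ε • (H * (1 - Y ε) ^ 2)) - P * D * D) := by
      rw [smul_sub, smul_neg, smul_smul, inv_mul_cancel₀ hne', one_smul, mul_smul_comm,
        smul_mul_assoc]
    rw [h5, map_smul, Gc_apply, mul_smul_comm, ← h4]
  refine Tendsto.congr' (hkey.mono fun _ h => h.symm) ?_
  have hlim2 : Tendsto (fun ε : ℝ => P * (ε⁻¹ • (Y ε - X)) * (Y ε - X)) (𝓝[≠] 0) (𝓝 0) := by
    rw [tendsto_zero_iff_norm_tendsto_zero]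
    have hb : ∀ᶠ ε in 𝓝[≠] (0 : ℝ), ‖P * (ε⁻¹ • (Y ε - X)) * (Y ε - X)‖ ≤
        ‖P‖ * (8 * ‖H‖) * (8 * ‖H‖ * |ε|) := by
      filter_upwards [nhdsWithin_le_nhds hbound, self_mem_nhdsWithin] with ε hε hne
      have hne' : ε ≠ 0 := hne
      have h1 : ‖ε⁻¹ • (Y ε - X)‖ ≤ 8 * ‖H‖ := by
        rw [norm_smul, norm_inv, Real.norm_eq_abs, inv_mul_le_iff₀ (abs_pos.2 hne')]
        linarith
      calc _ ≤ ‖P * (ε⁻¹ • (Y ε - X))‖ * ‖Y ε - X‖ := norm_mul_le _ _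
        _ ≤ (‖P‖ * ‖ε⁻¹ • (Y ε - X)‖) * ‖Y ε - X‖ := by gcongr; exact norm_mul_le _ _
        _ ≤ _ := by gcongr
    refine squeeze_zero' (Eventually.of_forall fun _ => norm_nonneg _) hb ?_
    have : Tendsto (fun ε : ℝ => ‖P‖ * (8 * ‖H‖) * (8 * ‖H‖ * |ε|)) (𝓝[≠] 0)
        (𝓝 (‖P‖ * (8 * ‖H‖) * (8 * ‖H‖ * |0|))) :=
      tendsto_nhdsWithin_of_tendsto_nhds
        ((continuous_const.mul (continuous_const.mul continuous_abs)).tendsto 0)
    simpa using this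
  have hcont' : Tendsto Y (𝓝[≠] 0) (𝓝 X) := tendsto_nhdsWithin_of_tendsto_nhds hcont
  have hlim1 : Tendsto (fun ε : ℝ => -(H * (1 - Y ε) ^ 2)) (𝓝[≠] 0) (𝓝 (-(H * (1 - X) ^ 2))) :=
    (((tendsto_const_nhds.sub hcont').pow 2).const_mul H).neg
  have hlim3 := hlim1.sub hlim2
  rw [sub_zero] at hlim3
  have hlim4 := (((Gc X hX).continuous.tendsto _).comp hlim3).const_mul Ninv
  exact hlim4

theorem deriv_K (hX : ‖X‖ < 1) {X' : R} (hY0 : Y 0 = X) (hd : HasDerivAt Y X' 0) (A : R) :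
    HasDerivAt (fun ε => G (Y ε) A)
      (G X (star X' * G X A * X + star X * G X A * X')) 0 := by
  have hcont : Tendsto Y (𝓝 0) (𝓝 X) := by
    have := hd.continuousAt
    rwa [ContinuousAt, hY0] at this
  set ρ : ℝ := (1 + ‖X‖) / 2 with hρ
  have hρ1 : ρ < 1 := by rw [hρ]; linarith
  have hρ0 : 0 ≤ ρ := by rw [hρ]; linarith [norm_nonneg X]
  have hYρ : ∀ᶠ ε in 𝓝 (0 : ℝ), ‖Y ε‖ ≤ ρ := by
    have h1 : ‖X‖ < ρ := by rw [hρ]; linarith
    filter_upwards [(hcont.norm).eventually (gt_mem_nhds h1)] with ε hε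
    exact hε.le
  -- the difference formula
  have hdiff : ∀ᶠ ε in 𝓝 (0 : ℝ), G (Y ε) A - G X A =
      Gc X hX (star (Y ε - X) * G (Y ε) A * Y ε + star X * G (Y ε) A * (Y ε - X)) := by
    filter_upwards [hYρ] with ε hε
    have hY1 : ‖Y ε‖ < 1 := lt_of_le_of_lt hε hρ1
    rw [Gc_apply]
    apply eq_G hX
    conv_lhs => rw [G_eq hY1 A, G_eq hX A]
    rw [star_sub]
    noncomm_ring
  have hKb : ∀ᶠ ε in 𝓝 (0 : ℝ), ‖G (Y ε) A‖ ≤ (1 - ρ * ρ)⁻¹ * ‖A‖ := by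
    filter_upwards [hYρ] with ε hε
    have hY1 : ‖Y ε‖ < 1 := lt_of_le_of_lt hε hρ1
    refine (G_norm_le hY1 A).trans ?_
    have h1 : 0 < 1 - ρ * ρ := by nlinarith
    have h2 : 1 - ρ * ρ ≤ 1 - ‖Y ε‖ * ‖Y ε‖ := by nlinarith [norm_nonneg (Y ε)]
    gcongr
  have hD0 : Tendsto (fun ε => Y ε - X) (𝓝 0) (𝓝 0) := by
    have := hcont.sub_const X
    rwa [sub_self] at this
  have hKcont : Tendsto (fun ε => G (Y ε) A) (𝓝 0) (𝓝 (G X A)) := by
    have h1 : Tendsto (fun ε => star (Y ε - X) * G (Y ε) A * Y ε +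
        star X * G (Y ε) A * (Y ε - X)) (𝓝 0) (𝓝 0) := by
      rw [tendsto_zero_iff_norm_tendsto_zero]
      have hb : ∀ᶠ ε in 𝓝 (0 : ℝ), ‖star (Y ε - X) * G (Y ε) A * Y ε +
          star X * G (Y ε) A * (Y ε - X)‖ ≤
          (((1 - ρ * ρ)⁻¹ * ‖A‖) * ρ + ‖X‖ * ((1 - ρ * ρ)⁻¹ * ‖A‖)) * ‖Y ε - X‖ := by
        filter_upwards [hKb, hYρ] with ε h1 h2
        refine (norm_add_le _ _).trans ?_
        have h3 : ‖star (Y ε - X) * G (Y ε) A * Y ε‖ ≤
            ‖Y ε - X‖ * ((1 - ρ * ρ)⁻¹ * ‖A‖) * ρ := by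
          calc ‖star (Y ε - X) * G (Y ε) A * Y ε‖ ≤ ‖star (Y ε - X) * G (Y ε) A‖ * ‖Y ε‖ :=
                norm_mul_le _ _
            _ ≤ (‖star (Y ε - X)‖ * ‖G (Y ε) A‖) * ‖Y ε‖ := by gcongr; exact norm_mul_le _ _
            _ = (‖Y ε - X‖ * ‖G (Y ε) A‖) * ‖Y ε‖ := by rw [norm_star]
            _ ≤ _ := mul_le_mul (mul_le_mul_of_nonneg_left h1 (norm_nonneg _)) h2 (norm_nonneg _)
                  (mul_nonneg (norm_nonneg _) ((norm_nonneg _).trans h1))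
        have h4 : ‖star X * G (Y ε) A * (Y ε - X)‖ ≤
            ‖X‖ * ((1 - ρ * ρ)⁻¹ * ‖A‖) * ‖Y ε - X‖ := by
          calc ‖star X * G (Y ε) A * (Y ε - X)‖ ≤ ‖star X * G (Y ε) A‖ * ‖Y ε - X‖ :=
                norm_mul_le _ _
            _ ≤ (‖star X‖ * ‖G (Y ε) A‖) * ‖Y ε - X‖ := by gcongr; exact norm_mul_le _ _
            _ = (‖X‖ * ‖G (Y ε) A‖) * ‖Y ε - X‖ := by rw [norm_star]
            _ ≤ _ := by gcongr
        linarith
      refine squeeze_zero' (Eventually.of_forall fun _ => norm_nonneg _) hb ?_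
      have := hD0.norm.const_mul (((1 - ρ * ρ)⁻¹ * ‖A‖) * ρ + ‖X‖ * ((1 - ρ * ρ)⁻¹ * ‖A‖))
      simpa using this
    have h2 := ((Gc X hX).continuous.tendsto 0).comp h1
    rw [map_zero] at h2
    have h3 : Tendsto (fun ε => G (Y ε) A - G X A) (𝓝 0) (𝓝 0) :=
      Tendsto.congr' (hdiff.mono fun _ h => h.symm) h2
    have h4 := h3.add_const (G X A)
    simpa using h4
  rw [hasDerivAt_iff_tendsto_slope_zero]
  rw [hasDerivAt_iff_tendsto_slope_zero] at hd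
  simp only [zero_add, hY0] at hd ⊢
  have hkey : ∀ᶠ ε in 𝓝[≠] (0 : ℝ), ε⁻¹ • (G (Y ε) A - G X A) =
      Gc X hX (star (ε⁻¹ • (Y ε - X)) * G (Y ε) A * Y ε +
        star X * G (Y ε) A * (ε⁻¹ • (Y ε - X))) := by
    filter_upwards [nhdsWithin_le_nhds hdiff] with ε hε
    rw [hε, ← map_smul]
    congr 1
    rw [smul_add, star_smul, star_trivial ε⁻¹, smul_mul_assoc, smul_mul_assoc, mul_smul_comm]
  refine Tendsto.congr' (hkey.mono fun _ h => h.symm) ?_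
  have hc1 : Tendsto Y (𝓝[≠] 0) (𝓝 X) := tendsto_nhdsWithin_of_tendsto_nhds hcont
  have hc2 : Tendsto (fun ε => G (Y ε) A) (𝓝[≠] 0) (𝓝 (G X A)) :=
    tendsto_nhdsWithin_of_tendsto_nhds hKcont
  have hl := ((hd.star.mul hc2).mul hc1).add (((hc2.const_mul (star X))).mul hd)
  exact ((Gc X hX).continuous.tendsto _).comp hl

/-- The directional derivative of the middle component. -/
noncomputable def Lop (X K Z : R) : R :=
  -(star Z) * K * (1 - X) + (1 - star X) * G X (star Z * K * X + star X * K * Z) * (1 - X)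
    - (1 - star X) * K * Z

theorem deriv_F (hX : ‖X‖ < 1) {X' : R} (hY0 : Y 0 = X) (hd : HasDerivAt Y X' 0) (A : R)
    (φ : R →L[ℝ] ℝ) :
    HasDerivAt (fun ε => φ ((1 - star (Y ε)) * G (Y ε) A * (1 - Y ε))) (φ (Lop X (G X A) X')) 0 := by
  have hK := deriv_K hX hY0 hd A
  have h1 : HasDerivAt (fun ε => 1 - star (Y ε)) (-(star X')) 0 := by
    have := (hd.star).const_sub (1 : R)
    exact this
  have h2 : HasDerivAt (fun ε => 1 - Y ε) (-X') 0 := hd.const_sub (1 : R)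
  have h3 := (h1.mul hK).mul h2
  have h4 := φ.hasFDerivAt.comp_hasDerivAt 0 h3
  refine h4.congr_deriv ?_
  congr 1
  simp only [Pi.mul_apply]
  rw [hY0]
  unfold Lop
  noncomm_ring

end Deriv

theorem exists_unique_X {J P' A' Q' : R} (hJ : J * J = 1) (hJn : ‖J‖ ≤ 1) (hP : ‖P'‖ ≤ 1 / 5)
    (hQ : ‖Q'‖ ≤ 1 / 5) (hA : ‖A' - J‖ ≤ 1 / 10) :
    ∃! X : R, ‖X‖ < 1 ∧ P' * X ^ 2 + A' * X + Q' = 0 := by
  have hdiff : ∀ X Y : R, ∀ r : ℝ, 0 ≤ r → ‖X‖ ≤ r → ‖Y‖ ≤ r →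
      ‖J * (P' * X ^ 2 + (A' - J) * X + Q') - J * (P' * Y ^ 2 + (A' - J) * Y + Q')‖ ≤
        (2 / 5 * r + 1 / 10) * ‖X - Y‖ := by
    intro X Y r hr hX hY
    have e : J * (P' * X ^ 2 + (A' - J) * X + Q') - J * (P' * Y ^ 2 + (A' - J) * Y + Q') =
        J * (P' * ((X - Y) * X + Y * (X - Y)) + (A' - J) * (X - Y)) := by noncomm_ring
    rw [e]
    calc _ ≤ ‖J‖ * ‖P' * ((X - Y) * X + Y * (X - Y)) + (A' - J) * (X - Y)‖ := norm_mul_le _ _
      _ ≤ 1 * ‖P' * ((X - Y) * X + Y * (X - Y)) + (A' - J) * (X - Y)‖ := by gcongr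
      _ ≤ 1 * (‖P' * ((X - Y) * X + Y * (X - Y))‖ + ‖(A' - J) * (X - Y)‖) := by
          gcongr; exact norm_add_le _ _
      _ ≤ 1 * (1 / 5 * (‖X - Y‖ * r + r * ‖X - Y‖) + 1 / 10 * ‖X - Y‖) := by
          gcongr
          · refine (norm_mul_le _ _).trans ?_
            gcongr
            refine (norm_add_le _ _).trans ?_
            gcongr
            · exact (norm_mul_le _ _).trans (by gcongr)
            · exact (norm_mul_le _ _).trans (by gcongr)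
          · exact (norm_mul_le _ _).trans (by gcongr)
      _ = _ := by ring
  have hfix : ∀ X : R, P' * X ^ 2 + A' * X + Q' = 0 ↔
      -(J * (P' * X ^ 2 + (A' - J) * X + Q')) = X := by
    intro X
    have e1 : -(J * (P' * X ^ 2 + (A' - J) * X + Q')) =
        -(J * (P' * X ^ 2 + A' * X + Q')) + (J * J) * X := by noncomm_ring
    rw [e1, hJ, one_mul]
    constructor
    · intro h
      rw [h, mul_zero, neg_zero, zero_add]
    · intro h
      have h1 : J * (P' * X ^ 2 + A' * X + Q') = 0 := by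
        have := add_eq_right.1 h
        exact neg_eq_zero.1 this
      calc P' * X ^ 2 + A' * X + Q' = (J * J) * (P' * X ^ 2 + A' * X + Q') := by
            rw [hJ, one_mul]
        _ = 0 := by rw [mul_assoc, h1, mul_zero]
  -- existence
  have hex : ∃ X : R, ‖X‖ ≤ 1 / 2 ∧ P' * X ^ 2 + A' * X + Q' = 0 := by
    let f : R → R := fun X => -(J * (P' * X ^ 2 + (A' - J) * X + Q'))
    have hmaps : MapsTo f (Metric.closedBall (0 : R) (1 / 2)) (Metric.closedBall (0 : R) (1 / 2)) := by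
      intro X hX
      rw [mem_closedBall_zero_iff] at hX ⊢
      have h1 := hdiff X 0 (1 / 2) (by norm_num) hX (by rw [norm_zero]; norm_num)
      have h2 : ‖J * Q'‖ ≤ 1 / 5 := by
        calc ‖J * Q'‖ ≤ ‖J‖ * ‖Q'‖ := norm_mul_le _ _
          _ ≤ 1 * (1 / 5) := by gcongr
          _ = 1 / 5 := by norm_num
      have e : J * (P' * (0 : R) ^ 2 + (A' - J) * 0 + Q') = J * Q' := by noncomm_ring
      rw [e, sub_zero] at h1
      calc ‖f X‖ = ‖J * (P' * X ^ 2 + (A' - J) * X + Q')‖ := norm_neg _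
        _ = ‖(J * (P' * X ^ 2 + (A' - J) * X + Q') - J * Q') + J * Q'‖ := by
            congr 1; abel
        _ ≤ ‖J * (P' * X ^ 2 + (A' - J) * X + Q') - J * Q'‖ + ‖J * Q'‖ := norm_add_le _ _
        _ ≤ (2 / 5 * (1 / 2) + 1 / 10) * ‖X‖ + 1 / 5 := by linarith
        _ ≤ 1 / 2 := by nlinarith
    have hcontr : ContractingWith (1 / 2 : NNReal) (hmaps.restrict f _ _) := by
      refine ⟨by
        rw [← NNReal.coe_lt_coe]; norm_num, ?_⟩
      apply LipschitzWith.of_dist_le_mul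
      rintro ⟨X, hX⟩ ⟨Y, hY⟩
      rw [mem_closedBall_zero_iff] at hX hY
      rw [Subtype.dist_eq, Subtype.dist_eq, dist_eq_norm, dist_eq_norm]
      have h1 := hdiff X Y (1 / 2) (by norm_num) hX hY
      have e : ‖f X - f Y‖ = ‖J * (P' * X ^ 2 + (A' - J) * X + Q') -
          J * (P' * Y ^ 2 + (A' - J) * Y + Q')‖ := by
        rw [← norm_neg]
        congr 1
        simp only [f]
        abel
      change ‖f X - f Y‖ ≤ _ * ‖X - Y‖
      rw [e]
      refine h1.trans ?_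
      have : ((1 / 2 : NNReal) : ℝ) = 1 / 2 := by norm_num
      rw [this]
      nlinarith [norm_nonneg (X - Y)]
    obtain ⟨X, hX, hXf, _⟩ := hcontr.exists_fixedPoint' Metric.isClosed_closedBall.isComplete hmaps
      (x := (0 : R)) (Metric.mem_closedBall_self (by norm_num)) (edist_ne_top _ _)
    rw [mem_closedBall_zero_iff] at hX
    exact ⟨X, hX, (hfix X).2 hXf⟩
  obtain ⟨X, hX, hXe⟩ := hex
  refine ⟨X, ⟨by linarith, hXe⟩, ?_⟩
  rintro Y ⟨hY, hYe⟩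
  have h1 := hdiff Y X 1 zero_le_one hY.le (by linarith)
  have h2 := (hfix X).1 hXe
  have h3 := (hfix Y).1 hYe
  have e : ‖Y - X‖ = ‖J * (P' * Y ^ 2 + (A' - J) * Y + Q') -
      J * (P' * X ^ 2 + (A' - J) * X + Q')‖ := by
    rw [← norm_neg]
    congr 1
    conv_lhs => rw [← h2, ← h3]
    abel
  rw [← e] at h1
  have h4 : ‖Y - X‖ = 0 := by
    have := norm_nonneg (Y - X)
    nlinarith
  exact sub_eq_zero.1 (norm_eq_zero.1 h4)

end Abstract

/-! ### The definitions of the problem -/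

open scoped Matrix Matrix.Norms.L2Operator ComplexConjugate

section Definitions

variable {n d : Type} [Fintype n] [DecidableEq n] [Fintype d]

/-- `P = ∑ a_j A_j`. -/
def Pmat (A : d → Matrix n n ℂ) (a : d → ℂ) : Matrix n n ℂ := ∑ j, a j • A j

/-- `A = ∑ (b_j - a_j - conj a_j) A_j`. -/
def Amat (A : d → Matrix n n ℂ) (b : d → ℝ) (a : d → ℂ) : Matrix n n ℂ :=
  ∑ j, ((b j : ℂ) - a j - conj (a j)) • A j

/-- `X` has (operator) norm `< 1` and solves `P X² + A X + P* = 0`. -/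
def IsX (A : d → Matrix n n ℂ) (b : d → ℝ) (a : d → ℂ) (X : Matrix n n ℂ) : Prop :=
  ‖X‖ < 1 ∧ Pmat A a * X ^ 2 + Amat A b a * X + (Pmat A a)ᴴ = 0

open Classical in
/-- The unique such matrix (and `0` if there is no unique one). -/
noncomputable def Xmat (A : d → Matrix n n ℂ) (b : d → ℝ) (a : d → ℂ) : Matrix n n ℂ :=
  if h : ∃! X, IsX A b a X then h.choose else 0

/-- `K_j = ∑_r X*^r A_j X^r`. -/
noncomputable def Kmat (A : d → Matrix n n ℂ) (b : d → ℝ) (a : d → ℂ) (j : d) : Matrix n n ℂ :=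
  ∑' r : ℕ, (Xmat A b a)ᴴ ^ r * A j * (Xmat A b a) ^ r

/-- The 1-jet map in its normal form. -/
noncomputable def jet (A : d → Matrix n n ℂ) (b : d → ℝ) (p : (d → ℂ) × (n → ℂ)) :
    (n → ℂ) × (d → ℝ) × (d → ℝ) :=
  (p.2,
    fun j => (star p.2 ⬝ᵥ (((1 - (Xmat A b p.1)ᴴ) * Kmat A b p.1 j * (1 - Xmat A b p.1)) *ᵥ p.2)).re,
    fun j => (p.1 j).im)

/-- The real matrix in the definition of `𝔇(a)`-nondegeneracy. -/
noncomputable def nondegMat (A : d → Matrix n n ℂ) (b : d → ℝ) (a : d → ℂ) (V : n → ℂ) :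
    Matrix d d ℝ := fun j s =>
  (star V ⬝ᵥ ((∑' r : ℕ, (Xmat A b a)ᴴ ^ r * (A j * (Amat A b a)⁻¹ * A s) * (Xmat A b a) ^ r)
    *ᵥ V)).re

/-- Strong `𝔇(a)`-nondegeneracy of the quadric with matrices `A_j` (with respect to `b`). -/
def StronglyNondegenerate (A : d → Matrix n n ℂ) (b : d → ℝ) (a : d → ℂ) : Prop :=
  ∃ V : n → ℂ, (nondegMat A b a V).PosDef

/-- `𝔇(a)`-nondegeneracy of the quadric with matrices `A_j` (with respect to `b`). -/
def Nondegenerate [DecidableEq d] (A : d → Matrix n n ℂ) (b : d → ℝ) (a : d → ℂ) : Prop :=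
  ∃ V : n → ℂ, (nondegMat A b a V).det ≠ 0

end Definitions

/-! ### The example -/

section Example

/-- The index type (`n = 6`). -/
abbrev ι := (Fin 2 ⊕ Fin 2) ⊕ Fin 2

/-- `6 × 6` matrices. -/
abbrev M6 := Matrix ι ι ℂ

/-- `2 × 2` matrices. -/
abbrev M2 := Matrix (Fin 2) (Fin 2) ℂ

/-- `diag(1,-1)`. -/
def xi : M2 := !![1, 0; 0, -1]

theorem xi_mul : xi * xi = 1 := by
  ext i j
  fin_cases i <;> fin_cases j <;> simp [xi, Matrix.mul_apply]

theorem xi_star : xiᴴ = xi := by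
  ext i j
  fin_cases i <;> fin_cases j <;> simp [xi]

/-- The symmetry `J`. -/
def Jm : M6 := Matrix.fromBlocks (Matrix.fromBlocks 0 1 1 0) 0 0 1

/-- The matrix `A_2`. -/
noncomputable def Bm (t : ℝ) : M6 :=
  Matrix.fromBlocks (Matrix.fromBlocks 1 0 0 0) 0 0 (((1 / (1 + t ^ 2) : ℝ) : ℂ) • xi)

/-- The matrices `A_h`. -/
def Hm (t : ℝ) (h : M2) : M6 :=
  Matrix.fromBlocks (Matrix.fromBlocks (-((t ^ 2 : ℝ) : ℂ) • h) 0 0 h) 0 0 0

/-- The matrices `K_h`. -/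
def Km (h : M2) : M6 := Matrix.fromBlocks (Matrix.fromBlocks 0 0 0 h) 0 0 0

/-- The matrix `X`. -/
def Xm (t : ℝ) : M6 :=
  Matrix.fromBlocks (Matrix.fromBlocks 0 0 ((t : ℂ) • 1) 0) 0 0 ((t : ℂ) • xi)

/-- The inverse of `N = J + P X`. -/
noncomputable def Nim (t : ℝ) : M6 :=
  Matrix.fromBlocks (Matrix.fromBlocks 0 1 1 0) 0 0 (((1 + t ^ 2 : ℝ) : ℂ) • 1)

/-- Three Hermitian `2 × 2` matrices. -/
def hh : Fin 3 → M2 := ![!![1, 0; 0, 0], !![0, 1; 1, 0], !![0, Complex.I; -Complex.I, 0]]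

/-- The family `A_1, …, A_5`. -/
noncomputable def Af (t : ℝ) : Fin 5 → M6 :=
  ![Jm, Bm t, Hm t (hh 0), Hm t (hh 1), Hm t (hh 2)]

/-- The vector `b`. -/
def bf (t : ℝ) : Fin 5 → ℝ := ![1, -2 * t, 0, 0, 0]

/-- The point `a`. -/
def af (t : ℝ) : Fin 5 → ℂ := ![0, -(t : ℂ), 0, 0, 0]

theorem Jm_mul : Jm * Jm = 1 := by
  simp [Jm, Matrix.fromBlocks_multiply, Matrix.fromBlocks_one]

theorem Jm_star : star Jm = Jm := by
  rw [Matrix.star_eq_conjTranspose]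
  simp [Jm, Matrix.fromBlocks_conjTranspose]

theorem Jm_norm : ‖Jm‖ ≤ 1 := by
  have h : ‖star Jm * Jm‖ = ‖Jm‖ * ‖Jm‖ := CStarRing.norm_star_mul_self
  rw [Jm_star, Jm_mul, norm_one] at h
  nlinarith [norm_nonneg Jm]

theorem Xm_star (t : ℝ) : star (Xm t) =
    Matrix.fromBlocks (Matrix.fromBlocks 0 ((t : ℂ) • 1) 0 0) 0 0 ((t : ℂ) • xi) := by
  rw [Matrix.star_eq_conjTranspose]
  simp [Xm, Matrix.fromBlocks_conjTranspose, xi_star]

theorem Xm_norm {t : ℝ} (ht : 0 ≤ t) : ‖Xm t‖ ≤ t := by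
  let D : M6 := Matrix.fromBlocks (Matrix.fromBlocks 1 0 0 0) 0 0 1
  have hDD : D * D = D := by simp [D, Matrix.fromBlocks_multiply]
  have hDs : star D = D := by
    rw [Matrix.star_eq_conjTranspose]
    simp [D, Matrix.fromBlocks_conjTranspose]
  have hD : ‖D‖ ≤ 1 := by
    have h : ‖star D * D‖ = ‖D‖ * ‖D‖ := CStarRing.norm_star_mul_self
    rw [hDs, hDD] at h
    nlinarith [norm_nonneg D]
  have h1 : star (Xm t) * Xm t = ((t ^ 2 : ℝ) : ℂ) • D := by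
    rw [Xm_star]
    simp [Xm, D, Matrix.fromBlocks_multiply, Matrix.fromBlocks_smul, smul_smul, xi_mul, pow_two,
      -Complex.coe_smul]
  have h2 : ‖star (Xm t) * Xm t‖ = ‖Xm t‖ * ‖Xm t‖ := CStarRing.norm_star_mul_self
  rw [h1, norm_smul, Complex.norm_real, Real.norm_eq_abs, abs_of_nonneg (by positivity)] at h2
  by_contra hc
  push Not at hc
  nlinarith [norm_nonneg D, norm_nonneg (Xm t)]

theorem Pmat_af (t : ℝ) : Pmat (Af t) (af t) = -(t : ℂ) • Bm t := by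
  simp [Pmat, Af, af, Fin.sum_univ_succ]

theorem Amat_af (t : ℝ) : Amat (Af t) (bf t) (af t) = Jm := by
  have h : (-(2 * (t : ℂ)) + t + t) = 0 := by ring
  simp [Amat, Af, af, bf, Fin.sum_univ_succ, h]

theorem eta_pos (t : ℝ) : 0 < 1 + t ^ 2 := by positivity

theorem Xm_sq (t : ℝ) : Xm t ^ 2 = Matrix.fromBlocks (Matrix.fromBlocks 0 0 0 0) 0 0
    (((t ^ 2 : ℝ) : ℂ) • 1) := by
  rw [pow_two]
  simp [Xm, Matrix.fromBlocks_multiply, smul_smul, xi_mul, pow_two, -Complex.coe_smul]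

theorem eq0 (t : ℝ) : (-(t : ℂ) • Bm t) * Xm t ^ 2 + Jm * Xm t + (-(t : ℂ) • Bm t) = 0 := by
  rw [Xm_sq]
  simp only [Bm, Jm, Xm, Matrix.fromBlocks_smul, Matrix.fromBlocks_multiply,
    Matrix.fromBlocks_add]
  have h1 := (eta_pos t).ne'
  have h2 : ((1 + t ^ 2 : ℝ) : ℂ) ≠ 0 := by exact_mod_cast h1
  rw [← Matrix.fromBlocks_zero, ← Matrix.fromBlocks_zero]
  congr 1
  · congr 1 <;> ext i j <;> fin_cases i <;> fin_cases j <;> simp
  · simp
  · simp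
  · ext i j
    fin_cases i <;> fin_cases j <;> simp [xi]
    · push_cast at h2
      field_simp
      ring
    · push_cast at h2
      field_simp
      ring

/-- The matrix `N = J + P X`. -/
noncomputable def Nm (t : ℝ) : M6 :=
  Matrix.fromBlocks (Matrix.fromBlocks 0 1 1 0) 0 0 (((1 / (1 + t ^ 2) : ℝ) : ℂ) • 1)

theorem Nm_eq (t : ℝ) : Jm + (-(t : ℂ) • Bm t) * Xm t = Nm t := by
  simp only [Bm, Jm, Xm, Nm, Matrix.fromBlocks_smul, Matrix.fromBlocks_multiply,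
    Matrix.fromBlocks_add]
  have h1 := (eta_pos t).ne'
  have h2 : ((1 + t ^ 2 : ℝ) : ℂ) ≠ 0 := by exact_mod_cast h1
  congr 1
  · congr 1 <;> simp
  · simp
  · simp
  · ext i j
    fin_cases i <;> fin_cases j <;> simp [xi]
    · push_cast at h2
      field_simp
      ring
    · push_cast at h2
      field_simp
      ring

theorem PN_eq (t : ℝ) : -(t : ℂ) • Bm t = -(star (Xm t) * Nm t) := by
  rw [Xm_star]
  simp only [Bm, Nm, Matrix.fromBlocks_smul, Matrix.fromBlocks_multiply, Matrix.fromBlocks_neg,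
    Matrix.zero_mul, Matrix.mul_zero, Matrix.mul_one, Matrix.one_mul, add_zero, zero_add,
    smul_zero, neg_zero, Matrix.fromBlocks_add]
  congr 1
  · congr 1 <;> simp
  · ext i j
    fin_cases i <;> fin_cases j <;> simp [xi] <;> ring

theorem Nim_mul (t : ℝ) : Nim t * Nm t = 1 := by
  have h1 := (eta_pos t).ne'
  have h2 : ((1 + t ^ 2 : ℝ) : ℂ) ≠ 0 := by exact_mod_cast h1
  simp only [Nim, Nm, Matrix.fromBlocks_multiply]
  rw [← Matrix.fromBlocks_one, ← Matrix.fromBlocks_one]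
  congr 1
  · congr 1 <;> simp
  · simp
  · simp
  · ext i j
    push_cast at h2
    fin_cases i <;> fin_cases j <;> simp [h2]

theorem Hm_stein (t : ℝ) (h : M2) : Km h = Hm t h + star (Xm t) * Km h * Xm t := by
  rw [Xm_star]
  simp only [Km, Hm, Xm, Matrix.fromBlocks_multiply, Matrix.fromBlocks_add,
    Matrix.zero_mul, Matrix.mul_zero, Matrix.mul_one, Matrix.one_mul, add_zero, zero_add,
    smul_zero, neg_zero]
  congr 1
  congr 1
  ext i j
  simp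
  ring

theorem Km_iso (t : ℝ) (h h' : M2) : Km h * Nim t * Km h' = 0 := by
  simp [Km, Nim, Matrix.fromBlocks_multiply]

theorem hh_star (k : Fin 3) : (hh k)ᴴ = hh k := by
  fin_cases k <;> ext i j <;> fin_cases i <;> fin_cases j <;> simp [hh]

theorem Km_star {h : M2} (hs : hᴴ = h) : star (Km h) = Km h := by
  rw [Matrix.star_eq_conjTranspose]
  simp [Km, Matrix.fromBlocks_conjTranspose, hs]

theorem Hm_star {t : ℝ} {h : M2} (hs : hᴴ = h) : (Hm t h)ᴴ = Hm t h := by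
  simp [Hm, Matrix.fromBlocks_conjTranspose, hs]

theorem Bm_star (t : ℝ) : (Bm t)ᴴ = Bm t := by
  simp [Bm, Matrix.fromBlocks_conjTranspose, xi_star]

theorem Af_herm (t : ℝ) (j : Fin 5) : (Af t j).IsHermitian := by
  unfold Matrix.IsHermitian
  fin_cases j
  · exact Jm_star
  · exact Bm_star t
  · exact Hm_star (hh_star 0)
  · exact Hm_star (hh_star 1)
  · exact Hm_star (hh_star 2)

theorem PX_norm {t : ℝ} (ht : 0 ≤ t) (ht8 : t ≤ 1 / 8) : ‖-(t : ℂ) • Bm t‖ ≤ 1 / 7 := by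
  have h1 : ‖-(t : ℂ) • Bm t‖ ≤ t * (1 + ‖-(t : ℂ) • Bm t‖ * t) := by
    calc ‖-(t : ℂ) • Bm t‖ = ‖star (Xm t) * Nm t‖ := by rw [PN_eq, norm_neg]
      _ ≤ ‖star (Xm t)‖ * ‖Nm t‖ := norm_mul_le _ _
      _ = ‖Xm t‖ * ‖Jm + (-(t : ℂ) • Bm t) * Xm t‖ := by rw [norm_star, Nm_eq]
      _ ≤ t * ‖Jm + (-(t : ℂ) • Bm t) * Xm t‖ := by gcongr; exact Xm_norm ht
      _ ≤ t * (‖Jm‖ + ‖(-(t : ℂ) • Bm t) * Xm t‖) := by gcongr; exact norm_add_le _ _
      _ ≤ t * (1 + ‖-(t : ℂ) • Bm t‖ * t) := by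
          gcongr
          · exact Jm_norm
          · exact (norm_mul_le _ _).trans (by gcongr; exact Xm_norm ht)
  have h2 : t * t ≤ 1 / 64 := by nlinarith
  have h3 := norm_nonneg (-(t : ℂ) • Bm t)
  have h4 : t * (‖-(t : ℂ) • Bm t‖ * t) ≤ 1 / 64 * ‖-(t : ℂ) • Bm t‖ := by nlinarith
  nlinarith

theorem Pm_norm {t : ℝ} (ht : 0 ≤ t) (ht8 : t ≤ 1 / 8) : ‖Pmat (Af t) (af t)‖ < 1 / 5 := by
  rw [Pmat_af]
  exact lt_of_le_of_lt (PX_norm ht ht8) (by norm_num)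

theorem Pmat_cont (A : Fin 5 → M6) : Continuous (fun a : Fin 5 → ℂ => Pmat A a) := by
  unfold Pmat
  exact continuous_finset_sum _ fun j _ => (continuous_apply j).smul continuous_const

theorem Amat_cont (A : Fin 5 → M6) (b : Fin 5 → ℝ) :
    Continuous (fun a : Fin 5 → ℂ => Amat A b a) := by
  unfold Amat
  exact continuous_finset_sum _ fun j _ => ((continuous_const.sub (continuous_apply j)).sub
    (Complex.continuous_conj.comp (continuous_apply j))).smul continuous_const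

theorem eventually_unique {t : ℝ} (ht : 0 ≤ t) (ht8 : t ≤ 1 / 8) :
    ∀ᶠ a in 𝓝 (af t), ∃! X, IsX (Af t) (bf t) a X := by
  have h1 : ∀ᶠ a in 𝓝 (af t), ‖Pmat (Af t) a‖ < 1 / 5 :=
    (((Pmat_cont (Af t)).norm).tendsto (af t)).eventually (gt_mem_nhds (Pm_norm ht ht8))
  have h2 : ∀ᶠ a in 𝓝 (af t), ‖Amat (Af t) (bf t) a - Jm‖ < 1 / 10 := by
    have hc := (((Amat_cont (Af t) (bf t)).sub
      (continuous_const : Continuous fun _ : Fin 5 → ℂ => Jm)).norm).tendsto (af t)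
    refine hc.eventually (gt_mem_nhds ?_)
    simp only [Pi.sub_apply]
    rw [Amat_af, sub_self, norm_zero]
    norm_num
  filter_upwards [h1, h2] with a ha1 ha2
  have h3 : ‖(Pmat (Af t) a)ᴴ‖ ≤ 1 / 5 := by
    rw [← Matrix.star_eq_conjTranspose, norm_star]
    exact ha1.le
  exact exists_unique_X Jm_mul Jm_norm ha1.le h3 ha2.le

theorem Xmat_spec {A : Fin 5 → M6} {b : Fin 5 → ℝ} {a : Fin 5 → ℂ} (h : ∃! X, IsX A b a X) :
    IsX A b a (Xmat A b a) := by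
  unfold Xmat
  rw [dif_pos h]
  exact h.choose_spec.1

theorem Xmat_af {t : ℝ} (ht : 0 ≤ t) (ht8 : t ≤ 1 / 8) : Xmat (Af t) (bf t) (af t) = Xm t := by
  have h := (eventually_unique ht ht8).self_of_nhds
  apply h.unique (Xmat_spec h)
  refine ⟨lt_of_le_of_lt (Xm_norm ht) (by linarith), ?_⟩
  rw [Pmat_af, Amat_af]
  have e : (-(t : ℂ) • Bm t)ᴴ = -(t : ℂ) • Bm t := by
    rw [Matrix.conjTranspose_smul, Bm_star]
    simp
  rw [e]
  exact eq0 t

/-- The direction in the parameter space. -/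
def dir (c : Fin 3 → ℝ) : Fin 5 → ℂ := ![0, 0, (c 0 : ℂ), (c 1 : ℂ), (c 2 : ℂ)]

/-- The matrix of the direction, as a linear map. -/
noncomputable def Hlin (t : ℝ) : (Fin 3 → ℝ) →ₗ[ℝ] M6 where
  toFun c := ∑ k, c k • Hm t (hh k)
  map_add' c c' := by
    simp only [Pi.add_apply, add_smul, Finset.sum_add_distrib]
  map_smul' r c := by
    simp only [Pi.smul_apply, smul_eq_mul, mul_smul, Finset.smul_sum, RingHom.id_apply]

theorem Hlin_star (t : ℝ) (c : Fin 3 → ℝ) : star (Hlin t c) = Hlin t c := by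
  simp only [Hlin, LinearMap.coe_mk, AddHom.coe_mk, star_sum, star_smul, star_trivial]
  apply Finset.sum_congr rfl
  intro k _
  congr 1
  exact Hm_star (hh_star k)

theorem Pmat_add (A : Fin 5 → M6) (a e : Fin 5 → ℂ) (ε : ℝ) :
    Pmat A (a + (ε : ℂ) • e) = Pmat A a + ε • Pmat A e := by
  simp only [Pmat, Pi.add_apply, Pi.smul_apply, add_smul, Finset.sum_add_distrib, smul_assoc,
    ← Finset.smul_sum, Complex.coe_smul]

theorem Amat_add (A : Fin 5 → M6) (b : Fin 5 → ℝ) (a e : Fin 5 → ℂ) (he : ∀ j, conj (e j) = e j)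
    (ε : ℝ) : Amat A b (a + (ε : ℂ) • e) = Amat A b a - (2 * ε) • Pmat A e := by
  simp only [Amat, Pmat, Finset.smul_sum]
  rw [← Finset.sum_sub_distrib]
  apply Finset.sum_congr rfl
  intro j _
  rw [← Complex.coe_smul, smul_smul, ← sub_smul]
  congr 1
  simp only [Pi.add_apply, Pi.smul_apply, smul_eq_mul, map_add, map_mul, he, Complex.conj_ofReal]
  push_cast
  ring

theorem Pmat_dir0 (t : ℝ) (c : Fin 3 → ℝ) : Pmat (Af t) (dir c) = Hlin t c := by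
  simp only [Pmat, Hlin, LinearMap.coe_mk, AddHom.coe_mk, Fin.sum_univ_five, Fin.sum_univ_three]
  simp [Af, dir]

theorem dir_real (c : Fin 3 → ℝ) (j : Fin 5) : conj (dir c j) = dir c j := by
  fin_cases j <;> simp [dir]

theorem Pmat_dir (t : ℝ) (c : Fin 3 → ℝ) (ε : ℝ) :
    Pmat (Af t) (af t + (ε : ℂ) • dir c) = -(t : ℂ) • Bm t + ε • Hlin t c := by
  rw [Pmat_add, Pmat_af, Pmat_dir0]

theorem Amat_dir (t : ℝ) (c : Fin 3 → ℝ) (ε : ℝ) :
    Amat (Af t) (bf t) (af t + (ε : ℂ) • dir c) = Jm - (2 * ε) • Hlin t c := by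
  rw [Amat_add _ _ _ _ (dir_real c), Amat_af, Pmat_dir0]

theorem eventually_YEq {t : ℝ} (ht : 0 ≤ t) (ht8 : t ≤ 1 / 8) (c : Fin 3 → ℝ) :
    ∀ᶠ ε in 𝓝 (0 : ℝ), YEq (-(t : ℂ) • Bm t) Jm (Hlin t c)
      (fun ε : ℝ => Xmat (Af t) (bf t) (af t + (ε : ℂ) • dir c)) ε := by
  have hc : Tendsto (fun ε : ℝ => af t + (ε : ℂ) • dir c) (𝓝 0) (𝓝 (af t)) := by
    have h1 : Continuous (fun ε : ℝ => af t + (ε : ℂ) • dir c) :=
      continuous_const.add (Complex.continuous_ofReal.smul continuous_const)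
    have := h1.tendsto 0
    simpa using this
  filter_upwards [hc.eventually (eventually_unique ht ht8)] with ε hε
  have h := Xmat_spec hε
  obtain ⟨h1, h2⟩ := h
  refine ⟨h1, ?_⟩
  rw [Pmat_dir, Amat_dir] at h2
  have e : (-(t : ℂ) • Bm t + ε • Hlin t c)ᴴ = -(t : ℂ) • Bm t + ε • Hlin t c := by
    rw [Matrix.conjTranspose_add, Matrix.conjTranspose_smul, Bm_star,
      ← Matrix.star_eq_conjTranspose (ε • Hlin t c), star_smul, Hlin_star]
    simp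
  rw [e] at h2
  exact h2

/-- The quadratic form of a vector as a continuous linear functional on matrices. -/
noncomputable def phi (V : ι → ℂ) : M6 →L[ℝ] ℝ :=
  LinearMap.toContinuousLinearMap
    { toFun := fun B => (star V ⬝ᵥ (B *ᵥ V)).re
      map_add' := by
        intro B B'
        rw [Matrix.add_mulVec, dotProduct_add, Complex.add_re]
      map_smul' := by
        intro r B
        rw [← Complex.coe_smul, Matrix.smul_mulVec, dotProduct_smul, smul_eq_mul]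
        simp }

theorem phi_apply (V : ι → ℂ) (B : M6) : phi V B = (star V ⬝ᵥ (B *ᵥ V)).re := rfl

/-- The derivative of `X` in the direction `c`. -/
noncomputable def Xp (t : ℝ) (hX : ‖Xm t‖ < 1) : (Fin 3 → ℝ) →ₗ[ℝ] M6 where
  toFun c := Nim t * G (Xm t) (-(Hlin t c * (1 - Xm t) ^ 2))
  map_add' c c' := by
    rw [map_add, add_mul, neg_add, G_add hX, mul_add]
  map_smul' r c := by
    rw [map_smul, smul_mul_assoc, ← smul_neg, G_smul hX, mul_smul_comm, RingHom.id_apply]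

/-- The operator `Lop` as a linear map. -/
noncomputable def LopLin (X K : M6) (hX : ‖X‖ < 1) : M6 →ₗ[ℝ] M6 where
  toFun Z := Lop X K Z
  map_add' Z Z' := by
    unfold Lop
    have e : star (Z + Z') * K * X + star X * K * (Z + Z') =
        (star Z * K * X + star X * K * Z) + (star Z' * K * X + star X * K * Z') := by
      rw [star_add]; noncomm_ring
    rw [e, G_add hX, star_add]
    noncomm_ring
  map_smul' r Z := by
    unfold Lop
    have e : star (r • Z) * K * X + star X * K * (r • Z) =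
        r • (star Z * K * X + star X * K * Z) := by
      rw [star_smul, star_trivial r, smul_add, smul_mul_assoc, smul_mul_assoc, mul_smul_comm]
    rw [e, G_smul hX, star_smul, star_trivial r, RingHom.id_apply]
    simp only [smul_sub, smul_add, mul_smul_comm, smul_mul_assoc, smul_neg, neg_mul, ← smul_neg]

/-- `∑ c_k K_{h_k}`. -/
noncomputable def KK (c : Fin 3 → ℝ) : M6 := ∑ k, c k • Km (hh k)

theorem G_Hlin (t : ℝ) (hX : ‖Xm t‖ < 1) (c : Fin 3 → ℝ) : G (Xm t) (Hlin t c) = KK c := by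
  symm
  apply eq_G hX
  unfold KK
  simp only [Hlin, LinearMap.coe_mk, AddHom.coe_mk]
  rw [Finset.mul_sum, Finset.sum_mul, ← Finset.sum_add_distrib]
  apply Finset.sum_congr rfl
  intro k _
  rw [mul_smul_comm, smul_mul_assoc, ← smul_add, ← Hm_stein]

theorem G_Af (t : ℝ) (hX : ‖Xm t‖ < 1) (h : M2) : G (Xm t) (Hm t h) = Km h :=
  (eq_G hX (Hm_stein t h)).symm

theorem Km_Xp (t : ℝ) (hX : ‖Xm t‖ < 1) (h : M2) (c : Fin 3 → ℝ) : Km h * Xp t hX c = 0 := by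
  have h1 : Xp t hX c = Nim t * (-(KK c * (1 - Xm t) ^ 2)) := by
    change Nim t * G (Xm t) (-(Hlin t c * (1 - Xm t) ^ 2)) = _
    rw [← neg_mul, G_mul_right hX _ _ (by noncomm_ring)]
    have : G (Xm t) (-Hlin t c) = - KK c := by
      have h2 := G_smul hX (-1) (Hlin t c)
      rw [neg_one_smul, neg_one_smul, G_Hlin t hX] at h2
      exact h2
    rw [this, neg_mul]
  rw [h1, mul_neg, mul_neg, ← mul_assoc, ← mul_assoc]
  have h2 : Km h * Nim t * KK c = 0 := by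
    unfold KK
    rw [Finset.mul_sum]
    apply Finset.sum_eq_zero
    intro k _
    rw [mul_smul_comm, Km_iso, smul_zero]
  rw [h2, zero_mul, neg_zero]

theorem Lop_zero {X K Z : M6} (hX : ‖X‖ < 1) (hKs : star K = K) (hK : K * Z = 0) :
    Lop X K Z = 0 := by
  have h1 : star Z * K = 0 := by
    have := congrArg star hK
    rwa [star_mul, hKs, star_zero] at this
  have h0 : G X (0 : M6) = 0 := by
    have := G_smul hX 0 (0 : M6)
    simpa using this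
  unfold Lop
  rw [h1, mul_assoc (star X) K Z, hK, mul_assoc (1 - star X) K Z, hK, neg_mul, h1]
  simp [h0]

theorem exists_dir {t : ℝ} (hX : ‖Xm t‖ < 1) (V : ι → ℂ) : ∃ c : Fin 3 → ℝ, c ≠ 0 ∧
    phi V (Lop (Xm t) (G (Xm t) Jm) (Xp t hX c)) = 0 ∧
    phi V (Lop (Xm t) (G (Xm t) (Bm t)) (Xp t hX c)) = 0 := by
  let f : (Fin 3 → ℝ) →ₗ[ℝ] ℝ × ℝ :=
    (((phi V : M6 →ₗ[ℝ] ℝ).comp (LopLin (Xm t) (G (Xm t) Jm) hX)).comp (Xp t hX)).prod
    (((phi V : M6 →ₗ[ℝ] ℝ).comp (LopLin (Xm t) (G (Xm t) (Bm t)) hX)).comp (Xp t hX))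
  have hker : LinearMap.ker f ≠ ⊥ := by
    apply LinearMap.ker_ne_bot_of_finrank_lt
    simp
  obtain ⟨c, hc, hc0⟩ := (Submodule.ne_bot_iff _).1 hker
  rw [LinearMap.mem_ker] at hc
  refine ⟨c, hc0, ?_, ?_⟩
  · exact congrArg Prod.fst hc
  · exact congrArg Prod.snd hc

theorem hasDerivAt_X {t : ℝ} (ht : 0 ≤ t) (ht8 : t ≤ 1 / 8) (hX : ‖Xm t‖ < 1)
    (c : Fin 3 → ℝ) :
    HasDerivAt (fun ε : ℝ => Xmat (Af t) (bf t) (af t + (ε : ℂ) • dir c)) (Xp t hX c) 0 := by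
  have hP : ‖-(t : ℂ) • Bm t‖ ≤ 1 / 5 := (PX_norm ht ht8).trans (by norm_num)
  have h0 : Xmat (Af t) (bf t) (af t + ((0 : ℝ) : ℂ) • dir c) = Xm t := by
    rw [Complex.ofReal_zero, zero_smul, add_zero]
    exact Xmat_af ht ht8
  exact (deriv_Y (Ninv := Nim t) hX Jm_mul Jm_norm hP (eq0 t)
    (by rw [Nm_eq]; exact PN_eq t) (by rw [Nm_eq]; exact Nim_mul t) h0
    (eventually_YEq ht ht8 c)).1

theorem jet_snd (A : Fin 5 → M6) (b : Fin 5 → ℝ) (a : Fin 5 → ℂ) (V : ι → ℂ) (j : Fin 5) :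
    (jet A b (a, V)).2.1 j =
      phi V ((1 - star (Xmat A b a)) * G (Xmat A b a) (A j) * (1 - Xmat A b a)) := rfl

theorem jet_deriv {t : ℝ} (ht : 0 ≤ t) (ht8 : t ≤ 1 / 8) (V : ι → ℂ) : ∃ c : Fin 3 → ℝ, c ≠ 0 ∧
    HasDerivAt (fun ε : ℝ => jet (Af t) (bf t) (af t + (ε : ℂ) • dir c, V)) 0 0 := by
  have hX : ‖Xm t‖ < 1 := lt_of_le_of_lt (Xm_norm ht) (by linarith)
  obtain ⟨c, hc0, hc1, hc2⟩ := exists_dir hX V
  refine ⟨c, hc0, ?_⟩
  have h0 : Xmat (Af t) (bf t) (af t + ((0 : ℝ) : ℂ) • dir c) = Xm t := by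
    rw [Complex.ofReal_zero, zero_smul, add_zero]
    exact Xmat_af ht ht8
  have hd := hasDerivAt_X ht ht8 hX c
  have hcomp : ∀ j : Fin 5, phi V (Lop (Xm t) (G (Xm t) (Af t j)) (Xp t hX c)) = 0 := by
    have hiso : ∀ k : Fin 3, phi V (Lop (Xm t) (G (Xm t) (Hm t (hh k))) (Xp t hX c)) = 0 := by
      intro k
      rw [G_Af t hX, Lop_zero hX (Km_star (hh_star k)) (Km_Xp t hX _ c), map_zero]
    intro j
    fin_cases j
    · exact hc1
    · exact hc2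
    · exact hiso 0
    · exact hiso 1
    · exact hiso 2
  have h1 : HasDerivAt (fun _ : ℝ => V) 0 0 := hasDerivAt_const _ _
  have h2 : HasDerivAt (fun ε : ℝ => (jet (Af t) (bf t) (af t + (ε : ℂ) • dir c, V)).2.1) 0 0 := by
    rw [hasDerivAt_pi]
    intro j
    have h3 := deriv_F hX h0 hd (Af t j) (phi V)
    rw [hcomp j] at h3
    exact h3
  have h3 : HasDerivAt (fun ε : ℝ => (jet (Af t) (bf t) (af t + (ε : ℂ) • dir c, V)).2.2) 0 0 := by
    have e : (fun ε : ℝ => (jet (Af t) (bf t) (af t + (ε : ℂ) • dir c, V)).2.2) = fun _ => 0 := by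
      funext ε
      funext j
      change ((af t + (ε : ℂ) • dir c) j).im = 0
      rw [Pi.add_apply, Pi.smul_apply]
      fin_cases j <;> simp [af, dir]
    rw [e]
    exact hasDerivAt_const _ _
  exact h1.prodMk (h2.prodMk h3)

/-- The Hermitian `2 × 2` matrix of the last three parameters. -/
noncomputable def hc (c : Fin 5 → ℝ) : M2 :=
  !![(c 2 : ℂ), (c 3 : ℂ) + (c 4 : ℂ) * Complex.I; (c 3 : ℂ) - (c 4 : ℂ) * Complex.I, 0]

theorem Ac_eq (t : ℝ) (c : Fin 5 → ℝ) : ∑ j, c j • Af t j =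
    Matrix.fromBlocks (Matrix.fromBlocks ((c 1 : ℂ) • 1 - ((t ^ 2 : ℝ) : ℂ) • hc c)
      ((c 0 : ℂ) • 1) ((c 0 : ℂ) • 1) (hc c)) 0 0
      ((c 0 : ℂ) • 1 + ((c 1 * (1 / (1 + t ^ 2)) : ℝ) : ℂ) • xi) := by
  simp only [← Complex.coe_smul]
  simp only [Fin.sum_univ_five, Af, Jm, Bm, Hm, Matrix.cons_val, Matrix.cons_val_zero,
    Matrix.cons_val_one, Matrix.fromBlocks_smul, Matrix.fromBlocks_add, smul_zero, add_zero,
    zero_add]
  congr 1
  · congr 1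
    · ext i j
      fin_cases i <;> fin_cases j <;> simp [hh, hc] <;> ring
    · ext i j
      fin_cases i <;> fin_cases j <;> simp [hh, hc] <;> ring
  · ext i j
    fin_cases i <;> fin_cases j <;> simp [xi] 

/-- The solution of the Stein equation with right hand side `A_c J A_c`. -/
noncomputable def Sc (t : ℝ) (c : Fin 5 → ℝ) : M6 :=
  Matrix.fromBlocks (Matrix.fromBlocks
      (((2 * c 0 * c 1 : ℝ) : ℂ) • 1)
      (((c 0 ^ 2 : ℝ) : ℂ) • 1 + (c 1 : ℂ) • hc c - ((t ^ 2 : ℝ) : ℂ) • (hc c * hc c))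
      (((c 0 ^ 2 : ℝ) : ℂ) • 1 + (c 1 : ℂ) • hc c - ((t ^ 2 : ℝ) : ℂ) • (hc c * hc c))
      (((2 * c 0 : ℝ) : ℂ) • hc c)) 0 0
    !![(((c 0 + c 1 * (1 / (1 + t ^ 2))) ^ 2 / (1 - t ^ 2) : ℝ) : ℂ), 0;
      0, (((c 0 - c 1 * (1 / (1 + t ^ 2))) ^ 2 / (1 - t ^ 2) : ℝ) : ℂ)]

theorem Sc_stein {t : ℝ} (ht : t ^ 2 < 1) (c : Fin 5 → ℝ) :
    Sc t c = (∑ j, c j • Af t j) * Jm * (∑ j, c j • Af t j) + star (Xm t) * Sc t c * Xm t := by
  rw [Ac_eq, Xm_star]
  have ht1 : ((1 - t ^ 2 : ℝ) : ℂ) ≠ 0 := by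
    have : (1 - t ^ 2 : ℝ) ≠ 0 := by linarith
    exact_mod_cast this
  simp only [Sc, Jm, Xm, Matrix.fromBlocks_multiply, Matrix.fromBlocks_add,
    Matrix.zero_mul, Matrix.mul_zero, Matrix.mul_one, Matrix.one_mul, add_zero, zero_add]
  generalize hc c = h
  generalize 1 / (1 + t ^ 2) = η
  congr 1
  · congr 1
    · ext i j
      fin_cases i <;> fin_cases j <;> simp [Matrix.mul_apply, Fin.sum_univ_two] <;> ring
    · ext i j
      fin_cases i <;> fin_cases j <;> simp [Matrix.mul_apply, Fin.sum_univ_two] <;> ring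
    · ext i j
      fin_cases i <;> fin_cases j <;> simp [Matrix.mul_apply, Fin.sum_univ_two] <;> ring
    · ext i j
      fin_cases i <;> fin_cases j <;> simp [Matrix.mul_apply, Fin.sum_univ_two] <;> ring
  · push_cast at ht1
    ext i j
    fin_cases i <;> fin_cases j <;> simp [Matrix.mul_apply, Fin.sum_univ_two, xi]
    · field_simp
      ring
    · field_simp
      ring

/-- The test vector. -/
noncomputable def V0 (t : ℝ) : ι → ℂ :=
  Sum.elim (Sum.elim ![1, 0] ![-1, 0]) ![((2 / t : ℝ) : ℂ), ((2 / t : ℝ) : ℂ)]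

theorem phi_Sc (t : ℝ) (c : Fin 5 → ℝ) : phi (V0 t) (Sc t c) =
    2 * c 0 * c 1 - 2 * (c 0 ^ 2 + c 1 * c 2 - t ^ 2 * (c 2 ^ 2 + c 3 ^ 2 + c 4 ^ 2))
      + 2 * c 0 * c 2 + (2 / t) ^ 2 * ((c 0 + c 1 * (1 / (1 + t ^ 2))) ^ 2 / (1 - t ^ 2) +
        (c 0 - c 1 * (1 / (1 + t ^ 2))) ^ 2 / (1 - t ^ 2)) := by
  rw [phi_apply]
  generalize hα : (c 0 + c 1 * (1 / (1 + t ^ 2))) ^ 2 / (1 - t ^ 2) = α
  generalize hβ : (c 0 - c 1 * (1 / (1 + t ^ 2))) ^ 2 / (1 - t ^ 2) = β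
  simp only [Sc, hα, hβ]
  simp [dotProduct, Matrix.mulVec, Fintype.sum_sum_type, Fin.sum_univ_two, V0, hc]
  have h1 : ((t : ℂ) ^ 2).re = t ^ 2 := by rw [← Complex.ofReal_pow, Complex.ofReal_re]
  have h2 : ((t : ℂ) ^ 2).im = 0 := by rw [← Complex.ofReal_pow, Complex.ofReal_im]
  have h3 : ((c 0 : ℂ) ^ 2).re = c 0 ^ 2 := by rw [← Complex.ofReal_pow, Complex.ofReal_re]
  rw [h1, h2, h3]
  ring

theorem star_G {X : M6} (hX : ‖X‖ < 1) (B : M6) : star (G X B) = G X (star B) := by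
  apply eq_G hX
  conv_lhs => rw [G_eq hX B]
  simp only [star_add, star_mul, star_star, mul_assoc]

theorem phi_star (V : ι → ℂ) (B : M6) : phi V (star B) = phi V B := by
  rw [phi_apply, phi_apply, Matrix.star_eq_conjTranspose]
  have h : star V ⬝ᵥ (Bᴴ *ᵥ V) = star (star V ⬝ᵥ (B *ᵥ V)) := by
    rw [Matrix.star_dotProduct, Matrix.star_mulVec, Matrix.conjTranspose_conjTranspose,
      ← Matrix.dotProduct_mulVec]
  rw [h]
  simp

theorem q_pos {t : ℝ} (ht : 0 < t) (ht8 : t ≤ 1 / 8) {c : Fin 5 → ℝ} (hc0 : c ≠ 0) :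
    0 < 2 * c 0 * c 1 - 2 * (c 0 ^ 2 + c 1 * c 2 - t ^ 2 * (c 2 ^ 2 + c 3 ^ 2 + c 4 ^ 2))
      + 2 * c 0 * c 2 + (2 / t) ^ 2 * ((c 0 + c 1 * (1 / (1 + t ^ 2))) ^ 2 / (1 - t ^ 2) +
        (c 0 - c 1 * (1 / (1 + t ^ 2))) ^ 2 / (1 - t ^ 2)) := by
  have ht2 : t ^ 2 ≤ 1 / 64 := by nlinarith
  have hη : 64 / 65 ≤ 1 / (1 + t ^ 2) := by
    rw [div_le_div_iff₀ (by norm_num) (by positivity)]
    nlinarith
  generalize hηd : 1 / (1 + t ^ 2) = η at *
  obtain ⟨u, hu⟩ : ∃ u, c 0 = t * u := ⟨c 0 / t, by field_simp⟩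
  obtain ⟨v, hv⟩ : ∃ v, c 1 = t * v := ⟨c 1 / t, by field_simp⟩
  obtain ⟨w, hw⟩ : ∃ w, c 2 = w / t := ⟨c 2 * t, by field_simp⟩
  have h1 : (2 / t) ^ 2 * ((c 0 + c 1 * η) ^ 2 / (1 - t ^ 2) + (c 0 - c 1 * η) ^ 2 / (1 - t ^ 2)) ≥
      8 * u ^ 2 + 8 * (v * η) ^ 2 := by
    have e : (2 / t) ^ 2 * ((c 0 + c 1 * η) ^ 2 / (1 - t ^ 2) + (c 0 - c 1 * η) ^ 2 / (1 - t ^ 2)) =
        (8 * u ^ 2 + 8 * (v * η) ^ 2) / (1 - t ^ 2) := by
      rw [hu, hv]
      have : (1 - t ^ 2) ≠ 0 := by linarith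
      field_simp
      ring
    rw [e, ge_iff_le, le_div_iff₀ (by linarith)]
    have : 0 ≤ 8 * u ^ 2 + 8 * (v * η) ^ 2 := by positivity
    nlinarith [sq_nonneg t]
  have h2 : (v * η) ^ 2 ≥ 7 / 8 * v ^ 2 + 1 / 16 * v ^ 2 := by
    have : η ^ 2 ≥ 15 / 16 := by nlinarith
    rw [mul_pow]
    nlinarith [sq_nonneg v]
  have e2 : c 1 * c 2 = v * w := by rw [hv, hw]; field_simp
  have e3 : c 0 * c 2 = u * w := by rw [hu, hw]; field_simp
  have e4 : t ^ 2 * (c 2 ^ 2 + c 3 ^ 2 + c 4 ^ 2) = w ^ 2 + t ^ 2 * (c 3 ^ 2 + c 4 ^ 2) := by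
    rw [hw]; field_simp; ring
  have e5 : c 0 * c 1 = t ^ 2 * (u * v) := by rw [hu, hv]; ring
  have e6 : c 0 ^ 2 = t ^ 2 * u ^ 2 := by rw [hu]; ring
  have h3 : |u * v| ≤ (u ^ 2 + v ^ 2) / 2 := by
    rw [abs_le]
    constructor <;> nlinarith [sq_nonneg (u - v), sq_nonneg (u + v)]
  have h4 : t ^ 2 * (u * v) ≥ -(1 / 64 * ((u ^ 2 + v ^ 2) / 2)) := by
    have h5 := (abs_le.1 h3).1
    have h6 : t ^ 2 * |u * v| ≤ 1 / 64 * ((u ^ 2 + v ^ 2) / 2) := by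
      have := abs_nonneg (u * v)
      have h7 : 0 ≤ t ^ 2 := sq_nonneg t
      nlinarith [sq_nonneg u, sq_nonneg v]
    have h8 := neg_abs_le (u * v)
    nlinarith [sq_nonneg t]
  have h5 : t ^ 2 * u ^ 2 ≤ 1 / 64 * u ^ 2 := by nlinarith [sq_nonneg u]
  have hcpos : 0 < u ^ 2 + v ^ 2 + w ^ 2 + t ^ 2 * (c 3 ^ 2 + c 4 ^ 2) := by
    by_contra hcon
    push Not at hcon
    have a1 : 0 ≤ t ^ 2 * (c 3 ^ 2 + c 4 ^ 2) := by positivity
    have a2 : u ^ 2 = 0 := by linarith [sq_nonneg u, sq_nonneg v, sq_nonneg w]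
    have a3 : v ^ 2 = 0 := by linarith [sq_nonneg u, sq_nonneg v, sq_nonneg w]
    have a4 : w ^ 2 = 0 := by linarith [sq_nonneg u, sq_nonneg v, sq_nonneg w]
    have a5 : t ^ 2 * (c 3 ^ 2 + c 4 ^ 2) = 0 := by
      linarith [sq_nonneg u, sq_nonneg v, sq_nonneg w]
    have a6 : c 3 ^ 2 + c 4 ^ 2 = 0 := by
      rcases mul_eq_zero.1 a5 with h | h
      · have : 0 < t ^ 2 := by positivity
        linarith
      · exact h
    have b1 : u = 0 := pow_eq_zero_iff (two_ne_zero) |>.1 a2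
    have b2 : v = 0 := pow_eq_zero_iff (two_ne_zero) |>.1 a3
    have b3 : w = 0 := pow_eq_zero_iff (two_ne_zero) |>.1 a4
    have b4 : c 3 = 0 := by
      have : c 3 ^ 2 = 0 := by linarith [sq_nonneg (c 3), sq_nonneg (c 4)]
      exact pow_eq_zero_iff (two_ne_zero) |>.1 this
    have b5 : c 4 = 0 := by
      have : c 4 ^ 2 = 0 := by linarith [sq_nonneg (c 3), sq_nonneg (c 4)]
      exact pow_eq_zero_iff (two_ne_zero) |>.1 this
    apply hc0
    funext j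
    fin_cases j
    · simp [hu, b1]
    · simp [hv, b2]
    · simp [hw, b3]
    · exact b4
    · exact b5
  have a1 : 0 ≤ t ^ 2 * (c 3 ^ 2 + c 4 ^ 2) := by positivity
  have e7 : 2 * c 0 * c 1 - 2 * (c 0 ^ 2 + c 1 * c 2 - t ^ 2 * (c 2 ^ 2 + c 3 ^ 2 + c 4 ^ 2))
      + 2 * c 0 * c 2 = 2 * (t ^ 2 * (u * v)) - 2 * (t ^ 2 * u ^ 2) - 2 * (v * w) + 2 * w ^ 2 +
        2 * (t ^ 2 * (c 3 ^ 2 + c 4 ^ 2)) + 2 * (u * w) := by
    rw [← e5, ← e6, ← e2, ← e3]
    linear_combination 2 * e4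
  rw [e7]
  have s1 : 0 ≤ 4 * v ^ 2 - 4 * (v * w) + w ^ 2 := by
    have := sq_nonneg (2 * v - w)
    linarith [this, show (2 * v - w) ^ 2 = 4 * v ^ 2 - 4 * (v * w) + w ^ 2 by ring]
  have s2 : 0 ≤ 4 * u ^ 2 + 4 * (u * w) + w ^ 2 := by
    have := sq_nonneg (2 * u + w)
    linarith [this, show (2 * u + w) ^ 2 = 4 * u ^ 2 + 4 * (u * w) + w ^ 2 by ring]
  linarith [sq_nonneg u, sq_nonneg v, sq_nonneg w]

theorem Jm_inv : Jm⁻¹ = Jm := Matrix.inv_eq_left_inv Jm_mul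

theorem nondegMat_eq {t : ℝ} (ht : 0 ≤ t) (ht8 : t ≤ 1 / 8) (V : ι → ℂ) (j s : Fin 5) :
    nondegMat (Af t) (bf t) (af t) V j s = phi V (G (Xm t) (Af t j * Jm * Af t s)) := by
  unfold nondegMat
  rw [Amat_af, Jm_inv, Xmat_af ht ht8]
  rfl

theorem posDef {t : ℝ} (ht : 0 < t) (ht8 : t ≤ 1 / 8) :
    (nondegMat (Af t) (bf t) (af t) (V0 t)).PosDef := by
  have hX : ‖Xm t‖ < 1 := lt_of_le_of_lt (Xm_norm ht.le) (by linarith)
  apply Matrix.PosDef.of_dotProduct_mulVec_pos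
  · unfold Matrix.IsHermitian
    ext j s
    rw [Matrix.conjTranspose_apply, nondegMat_eq ht.le ht8, nondegMat_eq ht.le ht8, star_trivial,
      ← phi_star, star_G hX, star_mul, star_mul, Jm_star]
    have h1 : star (Af t j) = Af t j := Af_herm t j
    have h2 : star (Af t s) = Af t s := Af_herm t s
    rw [h1, h2, ← mul_assoc]
  · intro c hc0
    have h1 : star c ⬝ᵥ (nondegMat (Af t) (bf t) (af t) (V0 t) *ᵥ c) =
        phi (V0 t) (G (Xm t) ((∑ j, c j • Af t j) * Jm * (∑ j, c j • Af t j))) := by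
      have e : (∑ j, c j • Af t j) * Jm * (∑ j, c j • Af t j) =
          ∑ j, ∑ s, (c j * c s) • (Af t j * Jm * Af t s) := by
        rw [Finset.sum_mul, Finset.sum_mul]
        apply Finset.sum_congr rfl
        intro j _
        rw [Finset.mul_sum]
        apply Finset.sum_congr rfl
        intro s _
        rw [smul_mul_assoc, smul_mul_assoc, mul_smul_comm, smul_smul]
      rw [e, ← Gc_apply (Xm t) hX]
      simp only [map_sum, map_smul, Gc_apply]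
      simp only [dotProduct, Matrix.mulVec, star_trivial, Pi.star_apply, Finset.mul_sum,
        nondegMat_eq ht.le ht8, smul_eq_mul]
      apply Finset.sum_congr rfl
      intro j _
      apply Finset.sum_congr rfl
      intro s _
      ring
    rw [h1]
    have h2 : G (Xm t) ((∑ j, c j • Af t j) * Jm * (∑ j, c j • Af t j)) = Sc t c :=
      (eq_G hX (Sc_stein (by nlinarith) c)).symm
    rw [h2, phi_Sc]
    exact q_pos ht ht8 hc0

theorem Af_linearIndependent {t : ℝ} (ht : 0 < t) (ht8 : t ≤ 1 / 8) :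
    LinearIndependent ℝ (Af t) := by
  have hX : ‖Xm t‖ < 1 := lt_of_le_of_lt (Xm_norm ht.le) (by linarith)
  rw [Fintype.linearIndependent_iff]
  intro c hc
  by_contra hne
  push Not at hne
  have hc0 : c ≠ 0 := by
    obtain ⟨j, hj⟩ := hne
    intro h
    exact hj (congrFun h j)
  have h1 := q_pos ht ht8 hc0
  rw [← phi_Sc] at h1
  have h2 : G (Xm t) ((∑ j, c j • Af t j) * Jm * (∑ j, c j • Af t j)) = Sc t c :=
    (eq_G hX (Sc_stein (by nlinarith) c)).symm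
  rw [← h2, hc] at h1
  have h3 : G (Xm t) (0 * Jm * 0 : M6) = 0 := by
    have := G_smul hX 0 (0 : M6)
    simpa using this
  rw [h3, map_zero] at h1
  exact lt_irrefl _ h1

theorem Ab_isUnit {t : ℝ} (ht : 0 < t) (ht8 : t ≤ 1 / 8) :
    IsUnit (∑ j, (bf t j : ℂ) • Af t j) := by
  have hX : ‖Xm t‖ < 1 := lt_of_le_of_lt (Xm_norm ht.le) (by linarith)
  have h1 : ∑ j, (bf t j : ℂ) • Af t j = (1 - star (Xm t)) * Nm t * (1 - Xm t) := by
    have e1 : ∑ j, (bf t j : ℂ) • Af t j = Jm + (-(t : ℂ) • Bm t) + (-(t : ℂ) • Bm t) := by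
      have : (-2 * (t : ℂ)) • Bm t = (-(t : ℂ) • Bm t) + (-(t : ℂ) • Bm t) := by
        rw [← add_smul]; congr 1; ring
      simp only [Fin.sum_univ_five, bf, Af]
      simp only [Matrix.cons_val_zero, Matrix.cons_val_one, Matrix.cons_val]
      push_cast
      rw [this]
      simp [add_assoc]
    rw [e1]
    have e2 := Nm_eq t
    have e3 := PN_eq t
    have e4 : Nm t * Xm t = -(-(t : ℂ) • Bm t) := by
      have := congrArg star e3
      rw [star_neg, star_mul, star_star] at this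
      have h5 : star (-(t : ℂ) • Bm t) = -(t : ℂ) • Bm t := by
        rw [Matrix.star_eq_conjTranspose, Matrix.conjTranspose_smul, Bm_star]; simp
      have h6 : star (Nm t) = Nm t := by
        rw [Matrix.star_eq_conjTranspose]
        simp [Nm, Matrix.fromBlocks_conjTranspose]
      rw [h5, h6] at this
      rw [this, neg_neg]
    generalize hP : -(t : ℂ) • Bm t = P at *
    have e5 : star (Xm t) * Nm t = -P := by rw [e3, neg_neg]
    calc Jm + P + P = (Jm + P * Xm t) - P * Xm t + P + P := by abel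
      _ = Nm t - P * Xm t + P + P := by rw [e2]
      _ = Nm t + (star (Xm t) * Nm t) * Xm t - star (Xm t) * Nm t - Nm t * Xm t := by
          rw [e5, e4]; noncomm_ring
      _ = _ := by noncomm_ring
  rw [h1]
  have hN : IsUnit (Nm t) := by
    have h2 : Nm t * Nim t = 1 := mul_eq_one_comm.1 (Nim_mul t)
    exact ⟨⟨Nm t, Nim t, h2, Nim_mul t⟩, rfl⟩
  exact (((isUnit_one_sub_of_norm_lt_one (by rw [norm_star]; exact hX)).mul hN)).mul
    (isUnit_one_sub_of_norm_lt_one hX)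

theorem Km_mul (h h' : M2) : Km h * Km h' = Km (h * h') := by
  simp [Km, Matrix.fromBlocks_multiply]

theorem hh0_mul : hh 0 * hh 0 = hh 0 := by
  ext i j
  fin_cases i <;> fin_cases j <;> simp [hh, Matrix.mul_apply]

theorem hh1_mul : hh 1 * hh 1 = 1 := by
  ext i j
  fin_cases i <;> fin_cases j <;> simp [hh, Matrix.mul_apply]

theorem hh2_mul : hh 2 * hh 2 = 1 := by
  ext i j
  fin_cases i <;> fin_cases j <;> simp [hh, Matrix.mul_apply]

theorem Km_norm_of_proj {h : M2} (hs : hᴴ = h) (h2 : h * h = h) : ‖Km h‖ ≤ 1 := by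
  have h3 : ‖star (Km h) * Km h‖ = ‖Km h‖ * ‖Km h‖ := CStarRing.norm_star_mul_self
  rw [Km_star hs, Km_mul, h2] at h3
  nlinarith [norm_nonneg (Km h)]

theorem Km_norm_of_unit {h : M2} (hs : hᴴ = h) (h2 : h * h = 1) : ‖Km h‖ ≤ 1 := by
  have h1 : ‖Km 1‖ ≤ 1 := Km_norm_of_proj (by simp) (one_mul 1)
  have h3 : ‖star (Km h) * Km h‖ = ‖Km h‖ * ‖Km h‖ := CStarRing.norm_star_mul_self
  rw [Km_star hs, Km_mul, h2] at h3
  nlinarith [norm_nonneg (Km h)]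

theorem Km_hh_norm (k : Fin 3) : ‖Km (hh k)‖ ≤ 1 := by
  fin_cases k
  · exact Km_norm_of_proj (hh_star 0) hh0_mul
  · exact Km_norm_of_unit (hh_star 1) hh1_mul
  · exact Km_norm_of_unit (hh_star 2) hh2_mul

theorem Hm_norm {t : ℝ} (ht : 0 ≤ t) (ht8 : t ≤ 1 / 8) (k : Fin 3) : ‖Hm t (hh k)‖ ≤ 2 := by
  have h1 : Hm t (hh k) = Km (hh k) - star (Xm t) * Km (hh k) * Xm t := by
    rw [eq_sub_iff_add_eq]
    exact (Hm_stein t (hh k)).symm
  have h2 := Km_hh_norm k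
  have h3 := Xm_norm ht
  rw [h1]
  calc ‖Km (hh k) - star (Xm t) * Km (hh k) * Xm t‖
      ≤ ‖Km (hh k)‖ + ‖star (Xm t) * Km (hh k) * Xm t‖ := norm_sub_le _ _
    _ ≤ 1 + 1 * 1 * 1 := by
        gcongr
        refine (norm_mul_le _ _).trans ?_
        gcongr
        · refine (norm_mul_le _ _).trans ?_
          gcongr
          rw [norm_star]
          linarith
        · linarith
    _ = 2 := by norm_num

theorem Bm_norm {t : ℝ} (ht : 0 < t) (ht8 : t ≤ 1 / 8) : ‖Bm t‖ ≤ 2 := by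
  have h0 : ‖-(t : ℂ) • Bm t‖ = t * ‖Bm t‖ := by
    rw [norm_smul, norm_neg, Complex.norm_real, Real.norm_eq_abs, abs_of_pos ht]
  have h1 : ‖-(t : ℂ) • Bm t‖ ≤ t * (1 + ‖-(t : ℂ) • Bm t‖ * t) := by
    calc ‖-(t : ℂ) • Bm t‖ = ‖star (Xm t) * Nm t‖ := by rw [PN_eq, norm_neg]
      _ ≤ ‖star (Xm t)‖ * ‖Nm t‖ := norm_mul_le _ _
      _ = ‖Xm t‖ * ‖Jm + (-(t : ℂ) • Bm t) * Xm t‖ := by rw [norm_star, Nm_eq]
      _ ≤ t * ‖Jm + (-(t : ℂ) • Bm t) * Xm t‖ := by gcongr; exact Xm_norm ht.le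
      _ ≤ t * (‖Jm‖ + ‖(-(t : ℂ) • Bm t) * Xm t‖) := by gcongr; exact norm_add_le _ _
      _ ≤ t * (1 + ‖-(t : ℂ) • Bm t‖ * t) := by
          gcongr
          · exact Jm_norm
          · exact (norm_mul_le _ _).trans (by gcongr; exact Xm_norm ht.le)
  have h2 := PX_norm ht.le ht8
  have h3 : ‖-(t : ℂ) • Bm t‖ ≤ t * 2 := by
    refine h1.trans ?_
    gcongr
    nlinarith [norm_nonneg (-(t : ℂ) • Bm t)]
  rw [h0] at h3
  exact le_of_mul_le_mul_left h3 ht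

theorem Af_norm {t : ℝ} (ht : 0 < t) (ht8 : t ≤ 1 / 8) (j : Fin 5) : ‖Af t j‖ ≤ 2 := by
  fin_cases j
  · exact Jm_norm.trans (by norm_num)
  · exact Bm_norm ht ht8
  · exact Hm_norm ht.le ht8 0
  · exact Hm_norm ht.le ht8 1
  · exact Hm_norm ht.le ht8 2

theorem sum_norm {t : ℝ} (ht : 0 < t) (ht8 : t ≤ 1 / 8) (z : Fin 5 → ℂ) {r : ℝ}
    (hz : ∀ j, ‖z j‖ ≤ r) : ‖∑ j, z j • Af t j‖ ≤ 10 * r := by
  calc ‖∑ j, z j • Af t j‖ ≤ ∑ j, ‖z j • Af t j‖ := norm_sum_le _ _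
    _ ≤ ∑ _j : Fin 5, r * 2 := by
        apply Finset.sum_le_sum
        intro j _
        rw [norm_smul]
        have := Af_norm ht ht8 j
        have h2 := hz j
        have h3 := norm_nonneg (z j)
        exact mul_le_mul h2 this (norm_nonneg _) (h3.trans h2)
    _ = 10 * r := by
        rw [Finset.sum_const, Finset.card_univ, Fintype.card_fin, nsmul_eq_mul]
        push_cast
        ring

theorem ball_unique {t : ℝ} (ht : 0 < t) (ht8 : t ≤ 1 / 600) (a' : Fin 5 → ℂ)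
    (ha : ‖a'‖ ≤ 2 * t) : ∃! X, IsX (Af t) (bf t) a' X := by
  have ht8' : t ≤ 1 / 8 := by linarith
  have h0 : ∀ j, ‖a' j‖ ≤ 2 * t := fun j => (norm_le_pi_norm a' j).trans ha
  have h1 : ‖Pmat (Af t) a'‖ ≤ 1 / 5 := (sum_norm ht ht8' a' h0).trans (by linarith)
  have h3 : ‖(Pmat (Af t) a')ᴴ‖ ≤ 1 / 5 := by
    rw [← Matrix.star_eq_conjTranspose, norm_star]
    exact h1
  have h4 : Amat (Af t) (bf t) a' - Jm =
      ∑ j, ((![0, -2 * (t : ℂ), 0, 0, 0] : Fin 5 → ℂ) j - a' j - conj (a' j)) • Af t j := by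
    unfold Amat
    rw [sub_eq_iff_eq_add]
    simp only [Fin.sum_univ_five]
    simp only [bf, Af, Matrix.cons_val_zero, Matrix.cons_val_one, Matrix.cons_val]
    push_cast
    module
  have h2 : ‖Amat (Af t) (bf t) a' - Jm‖ ≤ 1 / 10 := by
    rw [h4]
    refine (sum_norm ht ht8' _ (r := 6 * t) ?_).trans (by linarith)
    intro j
    have h5 : ‖(![0, -2 * (t : ℂ), 0, 0, 0] : Fin 5 → ℂ) j‖ ≤ 2 * t := by
      fin_cases j <;> simp [abs_of_pos ht, ht.le]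
    calc _ ≤ ‖(![0, -2 * (t : ℂ), 0, 0, 0] : Fin 5 → ℂ) j - a' j‖ + ‖conj (a' j)‖ :=
          norm_sub_le _ _
      _ ≤ (‖(![0, -2 * (t : ℂ), 0, 0, 0] : Fin 5 → ℂ) j‖ + ‖a' j‖) + ‖conj (a' j)‖ := by
          gcongr; exact norm_sub_le _ _
      _ ≤ 2 * t + 2 * t + 2 * t := by
          rw [RCLike.norm_conj]
          linarith [h0 j]
      _ = 6 * t := by ring
  exact exists_unique_X Jm_mul Jm_norm h1 h3 h2

/-- **Disproof of Q1 (both versions).** For every `0 < t ≤ 1/600` there are Hermitian matrices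
`A_1, …, A_5` of size `6` (the quadric `Re w_j = z* A_j z`), `b ∈ ℝ^5` and a nonzero `a` with
`‖a‖ ≤ t` such that: the quadric is Levi generating and strongly Levi nondegenerate with respect to
`b`; the matrix `X` exists and is unique for all `a'` with `‖a'‖ ≤ 2t`; the quadric is strongly
`𝔇(a)`-nondegenerate (hence `𝔇(a)`-nondegenerate); but for every `V` the derivative of the 1-jet
map at `(a, V)` in some nonzero direction is zero, and the 1-jet map has no invertible derivative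
at `(a, V)`. -/
theorem result : ∀ t : ℝ, 0 < t → t ≤ 1 / 600 →
    ∃ (A : Fin 5 → Matrix ι ι ℂ) (b : Fin 5 → ℝ) (a : Fin 5 → ℂ),
      (∀ j, (A j).IsHermitian) ∧ LinearIndependent ℝ A ∧ IsUnit (∑ j, (b j : ℂ) • A j) ∧
      a ≠ 0 ∧ ‖a‖ ≤ t ∧ (∀ a' : Fin 5 → ℂ, ‖a'‖ ≤ 2 * t → ∃! X, IsX A b a' X) ∧
      StronglyNondegenerate A b a ∧ Nondegenerate A b a ∧
      ∀ V : ι → ℂ,
        (∃ c : Fin 5 → ℂ, c ≠ 0 ∧
          HasDerivAt (fun ε : ℝ => jet A b (a + (ε : ℂ) • c, V)) 0 0) ∧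
        ¬ ∃ D : ((Fin 5 → ℂ) × (ι → ℂ)) ≃L[ℝ] ((ι → ℂ) × (Fin 5 → ℝ) × (Fin 5 → ℝ)),
          HasFDerivAt (jet A b) (D : ((Fin 5 → ℂ) × (ι → ℂ)) →L[ℝ]
            ((ι → ℂ) × (Fin 5 → ℝ) × (Fin 5 → ℝ))) (a, V) := by
  intro t ht ht500
  have ht8 : t ≤ 1 / 8 := by linarith
  have hdir : ∀ c : Fin 3 → ℝ, c ≠ 0 → dir c ≠ 0 := by
    intro c hc hd
    apply hc
    funext k
    fin_cases k
    · have := congrFun hd 2
      simpa [dir] using this
    · have := congrFun hd 3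
      simpa [dir] using this
    · have := congrFun hd 4
      simpa [dir] using this
  refine ⟨Af t, bf t, af t, Af_herm t, Af_linearIndependent ht ht8, Ab_isUnit ht ht8, ?_, ?_,
    ball_unique ht ht500, ⟨V0 t, posDef ht ht8⟩, ⟨V0 t, (posDef ht ht8).det_pos.ne'⟩, ?_⟩
  · intro h
    have := congrFun h 1
    simp [af] at this
    exact ht.ne' this
  · rw [pi_norm_le_iff_of_nonneg ht.le]
    intro j
    fin_cases j <;> simp [af, abs_of_pos ht, ht.le]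
  · intro V
    obtain ⟨c, hc0, hd⟩ := jet_deriv ht.le ht8 V
    refine ⟨⟨dir c, hdir c hc0, hd⟩, ?_⟩
    rintro ⟨D, hD⟩
    have h1 : HasDerivAt (fun ε : ℝ => ((af t + (ε : ℂ) • dir c, V) : (Fin 5 → ℂ) × (ι → ℂ)))
        (dir c, 0) 0 := by
      refine HasDerivAt.prodMk ?_ (hasDerivAt_const _ _)
      rw [hasDerivAt_pi]
      intro j
      have h2 : HasDerivAt (fun ε : ℝ => (ε : ℂ) * dir c j) (1 * dir c j) 0 :=
        (Complex.ofRealCLM.hasDerivAt (x := (0 : ℝ))).mul_const (dir c j)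
      rw [one_mul] at h2
      exact h2.const_add (af t j)
    have h3 : HasFDerivAt (jet (Af t) (bf t)) (D : ((Fin 5 → ℂ) × (ι → ℂ)) →L[ℝ]
        ((ι → ℂ) × (Fin 5 → ℝ) × (Fin 5 → ℝ))) (af t + ((0 : ℝ) : ℂ) • dir c, V) := by
      rw [Complex.ofReal_zero, zero_smul, add_zero]
      exact hD
    have h4 := h3.comp_hasDerivAt (0 : ℝ) h1
    have h5 := h4.unique hd
    have h6 : (dir c, (0 : ι → ℂ)) = 0 := by
      apply D.injective
      rw [map_zero]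
      exact h5
    exact hdir c hc0 (congrArg Prod.fst h6)

end Example

end Pool.Agent.Results.MP_a09116_an.SingularJet
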